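import Pool.Agent.H554R2.Gap.DetMain

/-!
# Zero-error randomised algorithms: programs on pairs
-/

set_option autoImplicit false

open Finset

namespace Pool.Agent.H554R2.Zpp

open Pool.Agent.H554R2.Sem Pool.Agent.H554R2.Coin Pool.Agent.H554R2.Cnf Pool.Agent.H554R2.Lin

/-! ### restriction to the first (second) half -/

/-- The program `P` where the variables of one half have the fixed values `y`; instead of querying
such a variable the program queries the variable `i0`. -/
def restr {n : ℕ} (P : BP (Fin n ⊕ Fin n) Bool) (f : Fin n ⊕ Fin n → Fin n ⊕ Bool) (i0 : Fin n) :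
    BP (Fin n) Bool where
  State := P.State
  start := P.start
  node := fun s => match P.node s with
    | Sum.inl (i, nxt) => match f i with
      | Sum.inl j => Sum.inl (j, nxt)
      | Sum.inr c => Sum.inl (i0, fun _ => nxt c)
    | Sum.inr b => Sum.inr b

/-- the input of `P` -/
def inp {n : ℕ} (f : Fin n ⊕ Fin n → Fin n ⊕ Bool) (x : Pt n) : Fin n ⊕ Fin n → Bool :=
  fun i => match f i with
    | Sum.inl j => x j
    | Sum.inr c => c

theorem restr_walk {n : ℕ} (P : BP (Fin n ⊕ Fin n) Bool) (f : Fin n ⊕ Fin n → Fin n ⊕ Bool)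
    (i0 : Fin n) (x : Pt n) (l : List (Fin n ⊕ Fin n)) : ∀ s v : P.State,
    P.Walk (inp f x) s l v → ∃ l' : List (Fin n), l'.length = l.length ∧
      (restr P f i0).Walk x s l' v := by
  induction l with
  | nil =>
    intro s v h
    exact ⟨[], rfl, h⟩
  | cons i l ih =>
    rintro s v ⟨nxt, h1, h2⟩
    obtain ⟨l', h3, h4⟩ := ih _ _ h2
    rcases hf : f i with j | c
    · refine ⟨j :: l', by simp [h3], nxt, ?_, ?_⟩
      · simp only [restr, h1, hf]
      · have : inp f x i = x j := by simp only [inp, hf]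
        rw [← this]; exact h4
    · refine ⟨i0 :: l', by simp [h3], fun _ => nxt c, ?_, ?_⟩
      · simp only [restr, h1, hf]
      · have : inp f x i = c := by simp only [inp, hf]
        rw [← this]; exact h4

theorem restr_comp {n : ℕ} (P : BP (Fin n ⊕ Fin n) Bool) (f : Fin n ⊕ Fin n → Fin n ⊕ Bool)
    (i0 : Fin n) (x : Pt n) {l : List (Fin n ⊕ Fin n)} {b : Bool} (h : P.Comp (inp f x) l b) :
    ∃ l' : List (Fin n), l'.length = l.length ∧ (restr P f i0).Comp x l' b := by
  obtain ⟨v, h1, h2⟩ := h
  obtain ⟨l', h3, h4⟩ := restr_walk P f i0 x l _ _ h1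
  exact ⟨l', h3, v, h4, by simp only [restr, h2]⟩

/-! ### determinism, for arbitrary variables and outputs -/

theorem walk_uniq {ι β : Type} (P : BP ι β) (x : ι → Bool) : ∀ (l l' : List ι) (s v v' : P.State)
    (b b' : β), P.Walk x s l v → P.Walk x s l' v' → P.node v = Sum.inr b →
      P.node v' = Sum.inr b' → l = l' ∧ v = v' := by
  intro l
  induction l with
  | nil =>
    intro l' s v v' b b' h1 h2 h3 h4
    cases l' with
    | nil => exact ⟨rfl, h1.symm.trans h2⟩
    | cons i l' =>
      obtain ⟨nxt, h5, _⟩ := h2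
      have h1' : s = v := h1
      rw [h1', h3] at h5
      exact absurd h5 (by simp)
  | cons i l ih =>
    intro l' s v v' b b' h1 h2 h3 h4
    obtain ⟨nxt, h5, h6⟩ := h1
    cases l' with
    | nil =>
      have h2' : s = v' := h2
      rw [h2', h4] at h5
      exact absurd h5 (by simp)
    | cons i' l' =>
      obtain ⟨nxt', h7, h8⟩ := h2
      rw [h5] at h7
      injection h7 with h9
      injection h9 with h10 h11
      subst h10 h11
      obtain ⟨h12, h13⟩ := ih l' _ v v' b b' h6 h8 h3 h4
      exact ⟨by rw [h12], h13⟩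

theorem comp_uniq {ι β : Type} (P : BP ι β) (x : ι → Bool) {l l' : List ι} {b b' : β}
    (h : P.Comp x l b) (h' : P.Comp x l' b') : l = l' ∧ b = b' := by
  obtain ⟨v, h1, h2⟩ := h
  obtain ⟨v', h3, h4⟩ := h'
  obtain ⟨h5, h6⟩ := walk_uniq P x l l' _ v v' b b' h1 h3 h2 h4
  refine ⟨h5, ?_⟩
  rw [h6, h4] at h2
  injection h2 with h7
  exact h7.symm

/-! ### the algorithm on pairs -/

/-- What is done in the node `s` of the second run of `U`. -/
def node2 {n : ℕ} (U : BP (Fin n) Bool) (s : U.State) :
    ((Fin n ⊕ Fin n) × (Bool → U.State ⊕ U.State)) ⊕ Option Bool :=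
  match U.node s with
  | Sum.inl (i, nxt) => Sum.inl (Sum.inr i, fun b => Sum.inr (nxt b))
  | Sum.inr true => Sum.inr none
  | Sum.inr false => Sum.inr (some true)

/-- `U` is run on the first half, with answer `some false` if the output is `false`, and then on
the second half, with answer `some true` if the output is `false`; otherwise the answer is
`none`. -/
def pairProg {n : ℕ} (U : BP (Fin n) Bool) : BP (Fin n ⊕ Fin n) (Option Bool) where
  State := U.State ⊕ U.State
  start := Sum.inl U.start
  node := fun s => match s with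
    | Sum.inl s => match U.node s with
      | Sum.inl (i, nxt) => Sum.inl (Sum.inl i, fun b => Sum.inl (nxt b))
      | Sum.inr true => node2 U U.start
      | Sum.inr false => Sum.inr (some false)
    | Sum.inr s => node2 U s

theorem pair_card {n : ℕ} (U : BP (Fin n) Bool) :
    Fintype.card (pairProg U).State = 2 * Fintype.card U.State := by
  have : Fintype.card (pairProg U).State = Fintype.card (U.State ⊕ U.State) := rfl
  rw [this, Fintype.card_sum]; ring

theorem pair_walk1 {n : ℕ} (U : BP (Fin n) Bool) (x : Fin n ⊕ Fin n → Bool) (l : List (Fin n)) :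
    ∀ s v : U.State, U.Walk (fun i => x (Sum.inl i)) s l v →
      (pairProg U).Walk x (Sum.inl s) (l.map Sum.inl) (Sum.inl v) := by
  induction l with
  | nil => intro s v h; exact congrArg Sum.inl h
  | cons i l ih =>
    rintro s v ⟨nxt, h1, h2⟩
    exact ⟨fun b => Sum.inl (nxt b), by simp only [pairProg, h1], ih _ _ h2⟩

theorem pair_walk2 {n : ℕ} (U : BP (Fin n) Bool) (x : Fin n ⊕ Fin n → Bool) (l : List (Fin n)) :
    ∀ s v : U.State, U.Walk (fun i => x (Sum.inr i)) s l v →
      (pairProg U).Walk x (Sum.inr s) (l.map Sum.inr) (Sum.inr v) := by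
  induction l with
  | nil => intro s v h; exact congrArg Sum.inr h
  | cons i l ih =>
    rintro s v ⟨nxt, h1, h2⟩
    exact ⟨fun b => Sum.inr (nxt b), by simp only [pairProg, node2, h1], ih _ _ h2⟩

theorem walk_append {ι β : Type} (P : BP ι β) (x : ι → Bool) (l l' : List ι) :
    ∀ s v w : P.State, P.Walk x s l v → P.Walk x v l' w → P.Walk x s (l ++ l') w := by
  induction l with
  | nil => intro s v w h1 h2; have h : s = v := h1; rw [h]; exact h2
  | cons i l ih =>
    rintro s v w ⟨nxt, h1, h2⟩ h3
    exact ⟨nxt, h1, ih _ _ _ h2 h3⟩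

theorem pair_comp_false {n : ℕ} (U : BP (Fin n) Bool) (x : Fin n ⊕ Fin n → Bool) {l : List (Fin n)}
    (h : U.Comp (fun i => x (Sum.inl i)) l false) :
    (pairProg U).Comp x (l.map Sum.inl) (some false) := by
  obtain ⟨v, h1, h2⟩ := h
  exact ⟨Sum.inl v, pair_walk1 U x l _ _ h1, by simp only [pairProg, h2]⟩

theorem pair_comp_true {n : ℕ} (U : BP (Fin n) Bool) (x : Fin n ⊕ Fin n → Bool)
    {l l' : List (Fin n)} {b : Bool} (h : U.Comp (fun i => x (Sum.inl i)) l true)
    (h' : U.Comp (fun i => x (Sum.inr i)) l' b) :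
    (pairProg U).Comp x (l.map Sum.inl ++ l'.map Sum.inr) (if b = true then none else some true) := by
  obtain ⟨v, h1, h2⟩ := h
  obtain ⟨w, h3, h4⟩ := h'
  have h5 := pair_walk1 U x l _ _ h1
  cases l' with
  | nil =>
    refine ⟨Sum.inl v, by rw [List.map_nil, List.append_nil]; exact h5, ?_⟩
    have h6 : U.start = w := h3
    rw [← h6] at h4
    simp only [pairProg, h2, node2, h4]
    cases b <;> rfl
  | cons i l' =>
    obtain ⟨nxt, h6, h7⟩ := h3
    refine ⟨Sum.inr w, walk_append _ _ _ _ _ _ _ h5 ⟨fun b => Sum.inr (nxt b), ?_, ?_⟩, ?_⟩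
    · simp only [pairProg, h2, node2, h6]
    · exact pair_walk2 U x l' _ _ h7
    · simp only [pairProg, node2, h4]
      cases b <;> rfl

end Pool.Agent.H554R2.Zpp
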